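import Pool.Agent.H66.SG.T7
import Pool.Agent.H66.SG.CHL

/-!
SHARP GAP (`MP_c59857_nt`), CHG: the choice of the window for the products.
-/

set_option autoImplicit false

open MeasureTheory Filter Topology Finset

namespace Pool.Agent.H86.SG

open Pool.Agent.H67.AG (ul Inv Rt Av SA kap JJ TT InvZ nxt triv tow XN PN TN XX PX TX prX Fac
  Tup dl Dlt Mis Sw SwE T_ME T_J2 T_J3)
open Pool.Agent.H66.SG
open Pool.Agent.H66.SG.CHL (meas_Av Av_bd)

/-- the mean ergodic theorem in `L¹` -/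
theorem me_L1 (hme : T_ME) {Ω : Type} [MeasurableSpace Ω] (P : Measure Ω) [IsProbabilityMeasure P]
    (S : Ω ≃ᵐ Ω) (W : ℕ) {f : Ω → ℝ} (hS : MeasurePreserving S P P) (hf : Measurable f)
    (hb : ∀ ω, |f ω| ≤ 1) {δ : ℝ} (hδ : 0 < δ) :
    ∃ L₀ : ℕ, ∀ L, L₀ ≤ L → Integrable (fun q => |Av S W L f q - (P[f | Inv S W]) q|) P ∧
      ∫ q, |Av S W L f q - (P[f | Inv S W]) q| ∂P ≤ δ := by
  have h1 := hme Ω P S W f hS hf hb
  have h2 := h1.eventually (gt_mem_nhds (show (0 : ℝ) < δ ^ 2 by positivity))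
  obtain ⟨L₀, hL₀⟩ := eventually_atTop.1 h2
  refine ⟨L₀, fun L hL => ?_⟩
  have hc : ∀ᵐ q ∂P, |(P[f | Inv S W]) q| ≤ 1 :=
    ae_bdd_abs_condExp_of_ae_bdd_abs (Filter.Eventually.of_forall fun q => hb q)
  have hcm : AEStronglyMeasurable (P[f | Inv S W]) P := integrable_condExp.aestronglyMeasurable
  have ham : AEStronglyMeasurable (fun q => Av S W L f q - (P[f | Inv S W]) q) P :=
    (meas_Av S W L hf).aestronglyMeasurable.sub hcm
  have hab : ∀ᵐ q ∂P, |Av S W L f q - (P[f | Inv S W]) q| ≤ 2 := by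
    filter_upwards [hc] with q hq
    have := Av_bd S W L hb q
    calc _ ≤ |Av S W L f q| + |(P[f | Inv S W]) q| := abs_sub _ _
      _ ≤ 2 := by linarith
  have hi1 : Integrable (fun q => |Av S W L f q - (P[f | Inv S W]) q|) P :=
    (Integrable.of_bound ham 2 (by
      filter_upwards [hab] with q hq
      rw [Real.norm_eq_abs]
      exact hq)).abs
  have hi2 : Integrable (fun q => (Av S W L f q - (P[f | Inv S W]) q) ^ 2) P :=
    Integrable.of_bound (ham.pow 2) (2 ^ 2) (by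
      filter_upwards [hab] with q hq
      rw [Real.norm_eq_abs, abs_pow]
      exact pow_le_pow_left₀ (abs_nonneg _) hq 2)
  refine ⟨hi1, ?_⟩
  have h1 := hL₀ L hL
  have h2 : ∫ q, |Av S W L f q - (P[f | Inv S W]) q| ∂P ≤
      ∫ q, (δ / 2 + (1 / (2 * δ)) * (Av S W L f q - (P[f | Inv S W]) q) ^ 2) ∂P := by
    refine integral_mono hi1 ((integrable_const _).add (hi2.const_mul _)) fun q => ?_
    show |Av S W L f q - (P[f | Inv S W]) q| ≤ _
    obtain ⟨a, ha⟩ : ∃ a : ℝ, a = Av S W L f q - (P[f | Inv S W]) q := ⟨_, rfl⟩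
    rw [← ha]
    have h3 : δ / 2 + (1 / (2 * δ)) * a ^ 2 - |a| = (δ - |a|) ^ 2 / (2 * δ) := by
      rw [← sq_abs a]
      field_simp
      ring
    have h4 : 0 ≤ (δ - |a|) ^ 2 / (2 * δ) := by positivity
    linarith
  have h5 : ∫ q, (δ / 2 + (1 / (2 * δ)) * (Av S W L f q - (P[f | Inv S W]) q) ^ 2) ∂P =
      δ / 2 + (1 / (2 * δ)) * ∫ q, (Av S W L f q - (P[f | Inv S W]) q) ^ 2 ∂P := by
    rw [integral_add (integrable_const _) (hi2.const_mul _), integral_const_mul,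
      integral_const, probReal_univ, one_smul]
  have h6 : (1 / (2 * δ)) * ∫ q, (Av S W L f q - (P[f | Inv S W]) q) ^ 2 ∂P ≤
      (1 / (2 * δ)) * δ ^ 2 := mul_le_mul_of_nonneg_left h1.le (by positivity)
  have h7 : (1 / (2 * δ)) * δ ^ 2 = δ / 2 := by
    field_simp
  linarith

theorem int3 {Ω : Type} [MeasurableSpace Ω] {P : Measure Ω} {f g h : Ω → ℝ}
    (hf : Integrable f P) (hg : Integrable g P) (hh : Integrable h P) :
    ∫ q, (f q + g q + h q) ∂P = ∫ q, f q ∂P + ∫ q, g q ∂P + ∫ q, h q ∂P := by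
  have e1 : ∫ q, (f q + g q + h q) ∂P = ∫ q, (f q + g q) ∂P + ∫ q, h q ∂P :=
    integral_add (f := fun q => f q + g q) (hf.add hg) hh
  rw [e1, integral_add hf hg]

theorem D_meas (c : Ctx) (i : Fin c.k) : Measurable fun q : c.X × c.X => c.D1 i q * c.D2 i q :=
  (((c.Dm.comp (c.T.measurable.iterate _)).comp measurable_fst)).mul
    ((c.Dm.comp (c.T.measurable.iterate _)).comp measurable_snd)

theorem D_bd (c : Ctx) (i : Fin c.k) (q : c.X × c.X) : |c.D1 i q * c.D2 i q| ≤ 1 := by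
  have h1 : c.D1 i q = 1 ∨ c.D1 i q = -1 := c.Dv _
  have h2 : c.D2 i q = 1 ∨ c.D2 i q = -1 := c.Dv _
  rcases h1 with h1 | h1 <;> rcases h2 with h2 | h2 <;> rw [h1, h2] <;> norm_num

theorem pf_CHG (hme : T_ME) (hj2 : T_J2) (hj3 : T_J3) : T_CHG := by
  intro c Z W θ θ' hZ hθ hE
  obtain ⟨hp, _, _, _⟩ := hj2 c.X c.μ Z
  obtain ⟨hT, _⟩ := hj3 c.X c.μ c.T Z c.erg.toMeasurePreserving hZ
  have h1 : ∀ i, ∃ L₀ : ℕ, ∀ L, L₀ ≤ L → _ := fun i =>
    me_L1 hme (JJ c.μ Z) (TT c.T) (W * Dlt c.β) hT (D_meas c.toCtx i) (D_bd c.toCtx i)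
      (half_pos hθ)
  have h2 : ∀ i, ∃ L₀ : ℕ, ∀ L, L₀ ≤ L → _ := fun i =>
    me_L1 hme (JJ c.μ Z) (TT c.T) W hT (D_meas c.toCtx i) (D_bd c.toCtx i) (half_pos hθ)
  choose A hA using h1
  choose B hB using h2
  refine ⟨(∑ i, A i) + ∑ i, B i, fun L hL i => ?_⟩
  have hLA : A i ≤ L := ((Finset.single_le_sum (f := A) (fun _ _ => Nat.zero_le _)
    (Finset.mem_univ i)).trans (Nat.le_add_right _ _)).trans hL
  have hLB : B i ≤ L := ((Finset.single_le_sum (f := B) (fun _ _ => Nat.zero_le _)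
    (Finset.mem_univ i)).trans (Nat.le_add_left _ _)).trans hL
  obtain ⟨a1, a2⟩ := hA i L hLA
  obtain ⟨b1, b2⟩ := hB i L hLB
  have hEi := hE i
  have hci : Integrable (fun q => |((JJ c.μ Z)[fun q => c.D1 i q * c.D2 i q |
      Inv (TT c.T) (W * Dlt c.β)]) q -
      ((JJ c.μ Z)[fun q => c.D1 i q * c.D2 i q | Inv (TT c.T) W]) q|) (JJ c.μ Z) :=
    (integrable_condExp.sub integrable_condExp).abs
  have hmain : ∫ q, |Av (TT c.T) (W * Dlt c.β) L (fun q => c.D1 i q * c.D2 i q) q -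
      Av (TT c.T) W L (fun q => c.D1 i q * c.D2 i q) q| ∂(JJ c.μ Z) ≤
      ∫ q, (|Av (TT c.T) (W * Dlt c.β) L (fun q => c.D1 i q * c.D2 i q) q -
        ((JJ c.μ Z)[fun q => c.D1 i q * c.D2 i q | Inv (TT c.T) (W * Dlt c.β)]) q| +
      |((JJ c.μ Z)[fun q => c.D1 i q * c.D2 i q | Inv (TT c.T) (W * Dlt c.β)]) q -
        ((JJ c.μ Z)[fun q => c.D1 i q * c.D2 i q | Inv (TT c.T) W]) q| +
      |Av (TT c.T) W L (fun q => c.D1 i q * c.D2 i q) q -
        ((JJ c.μ Z)[fun q => c.D1 i q * c.D2 i q | Inv (TT c.T) W]) q|) ∂(JJ c.μ Z) := by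
    refine integral_mono_of_nonneg (Filter.Eventually.of_forall fun q => abs_nonneg _)
      ((a1.add hci).add b1) (Filter.Eventually.of_forall fun q => ?_)
    simp only
    obtain ⟨x, hx⟩ : ∃ x : ℝ, x = Av (TT c.T) (W * Dlt c.β) L
      (fun q => c.D1 i q * c.D2 i q) q := ⟨_, rfl⟩
    obtain ⟨y, hy⟩ : ∃ y : ℝ, y = Av (TT c.T) W L (fun q => c.D1 i q * c.D2 i q) q := ⟨_, rfl⟩
    obtain ⟨u, hu⟩ : ∃ u : ℝ, u = ((JJ c.μ Z)[fun q => c.D1 i q * c.D2 i q |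
      Inv (TT c.T) (W * Dlt c.β)]) q := ⟨_, rfl⟩
    obtain ⟨v, hv⟩ : ∃ v : ℝ, v = ((JJ c.μ Z)[fun q => c.D1 i q * c.D2 i q |
      Inv (TT c.T) W]) q := ⟨_, rfl⟩
    rw [← hx, ← hy, ← hu, ← hv]
    have e : x - y = (x - u) + (u - v) + (v - y) := by ring
    calc |x - y| = |(x - u) + (u - v) + (v - y)| := by rw [e]
      _ ≤ |x - u| + |u - v| + |v - y| := abs_add_three _ _ _
      _ = |x - u| + |u - v| + |y - v| := by rw [abs_sub_comm v y]
  have hfin := int3 a1 hci b1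
  linarith

end Pool.Agent.H86.SG
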