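import Pool.Agent.H40.AG.Base
import Pool.Agent.H66.SG.T7
import Pool.Agent.H66.SG.CHR

/-!
SHARP GAP (`MP_c59857_nt`), WDS: the products of a reference and the last point.
-/

set_option autoImplicit false
set_option linter.unusedVariables false

open MeasureTheory ProbabilityTheory Filter Topology Finset

namespace Pool.Agent.H86.SG

open Pool.Agent.H67.AG (ul Inv Rt Av SA kap JJ TT InvZ nxt triv tow XN PN TN XX PX TX prX Fac
  Tup dl Dlt Mis Sw SwE)
open Pool.Agent.H66.SG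
open Pool.Agent.H40.AG (bint av_meas av_bdd TT_it meas_it dg)

theorem wds_val (c : CtxE) (i : Fin c.k) (x : c.X) : c.Dt i x = 1 ∨ c.Dt i x = -1 := c.Dv _

theorem wds_meas (c : CtxE) (i : Fin c.k) : Measurable (c.Dt i) :=
  c.Dm.comp (c.T.measurable.iterate _)

/-- the sign of the letter `m` of a word -/
def sgn {k L : ℕ} (v : Fin k → Fin L → Bool) (i : Fin k) (m : ℕ) : ℝ :=
  if h : m < L then (if v i ⟨m, h⟩ = true then 1 else -1) else 0

theorem sgn_wd (c : CtxE) (W L m : ℕ) (i : Fin c.k) (x : c.X) (h : m < L) :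
    sgn (c.wd W L x) i m = c.Dt i (c.T^[W * m] x) := by
  unfold sgn CtxE.wd
  rw [dif_pos h]
  rcases wds_val c i (c.T^[W * m] x) with h1 | h1
  · simp [h1]
  · rw [if_neg, h1]
    simp only [h1, decide_eq_true_eq]
    norm_num

/-- the average of the products of a point and a word -/
noncomputable def gV (c : CtxE) (W D L L₂ : ℕ) (i : Fin c.k) (x : c.X)
    (v : Fin c.k → Fin L → Bool) : ℝ :=
  (∑ l ∈ range L₂, c.Dt i (c.T^[W * D * l] x) * sgn v i (D * l)) / L₂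

theorem gV_meas (c : CtxE) (W D L L₂ : ℕ) (i : Fin c.k) (v : Fin c.k → Fin L → Bool) :
    Measurable fun x => gV c W D L L₂ i x v := by
  unfold gV
  refine (Finset.measurable_sum _ fun l _ => ?_).div_const _
  exact ((wds_meas c i).comp (c.T.measurable.iterate _)).mul_const _

theorem av_gV (c : CtxE) (W D L L₂ : ℕ) (i : Fin c.k) (x x' : c.X)
    (h : ∀ l, l < L₂ → D * l < L) :
    Av (TT c.T) (W * D) L₂ (fun q => c.D1 i q * c.D2 i q) (x, x') =
      gV c W D L L₂ i x (c.wd W L x') := by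
  unfold Av gV
  congr 1
  refine Finset.sum_congr rfl fun l hl => ?_
  rw [TT_it, sgn_wd c W L (D * l) i x' (h l (Finset.mem_range.1 hl)), ← mul_assoc]
  rfl

theorem TX_it (X : Type) [MeasurableSpace X] [StandardBorelSpace X] (T : X ≃ᵐ X) (n m : ℕ)
    (q : XX X n) : ((TX T n)^[m] q).2.2 = T^[m] q.2.2 ∧
      ∀ b, ((TX T n)^[m] q).2.1 b = T^[m] (q.2.1 b) := by
  induction m generalizing q with
  | zero => exact ⟨rfl, fun b => rfl⟩
  | succ m ih =>
    rw [Function.iterate_succ_apply]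
    refine ⟨?_, fun b => ?_⟩
    · rw [(ih _).1, Function.iterate_succ_apply]
      rfl
    · rw [(ih _).2 b, Function.iterate_succ_apply]
      rfl

theorem av_TX (c : CtxE) (W L₂ n : ℕ) (i : Fin c.k) (b : Fin (n + 1)) (q : XX c.X (n + 1)) :
    Av (TX c.T (n + 1)) W L₂ (fun q => c.yL n i q * c.yX n b i q) q =
      Av (TT c.T) W L₂ (fun q => c.D1 i q * c.D2 i q) (q.2.1 b, q.2.2) := by
  unfold Av
  congr 1
  refine Finset.sum_congr rfl fun l _ => ?_
  rw [TT_it]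
  change c.Dt i ((TX c.T (n + 1))^[W * l] q).2.2 * c.Dt i (((TX c.T (n + 1))^[W * l] q).2.1 b) =
    c.Dt i (c.T^[W * l] (q.2.1 b)) * c.Dt i (c.T^[W * l] q.2.2)
  rw [(TX_it c.X c.T (n + 1) (W * l) q).1, (TX_it c.X c.T (n + 1) (W * l) q).2 b, mul_comm]

/-- comparison of the integrals of a function with values in `[0, 2]` -/
theorem layer {Ω : Type} [MeasurableSpace Ω] (P P' : Measure Ω) [IsProbabilityMeasure P]
    [IsProbabilityMeasure P'] {f : Ω → ℝ} (hf : Measurable f) (h0 : ∀ ω, 0 ≤ f ω)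
    (h2 : ∀ ω, f ω ≤ 2) {e : ℝ} (h : ∀ t, P.real {ω | t ≤ f ω} ≤ P'.real {ω | t ≤ f ω} + e) :
    ∫ ω, f ω ∂P ≤ ∫ ω, f ω ∂P' + 2 * e := by
  have hi : ∀ Q : Measure Ω, IsProbabilityMeasure Q → Integrable f Q := fun Q _ =>
    bint hf ⟨2, fun ω => by rw [abs_of_nonneg (h0 ω)]; exact h2 ω⟩
  have hr : ∀ Q : Measure Ω, IsProbabilityMeasure Q →
      ∫ ω, f ω ∂Q = ∫ t in Set.Ioc 0 2, Q.real {ω | t ≤ f ω} := fun Q hQ =>
    (hi Q hQ).integral_eq_integral_Ioc_meas_le (ae_of_all _ h0) (ae_of_all _ h2)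
  have hint : ∀ Q : Measure Ω, IsProbabilityMeasure Q →
      IntegrableOn (fun t : ℝ => Q.real {ω | t ≤ f ω}) (Set.Ioc 0 2) := by
    intro Q hQ
    have ha : Antitone fun t : ℝ => Q.real {ω | t ≤ f ω} := fun s t hst =>
      measureReal_mono fun ω hω => le_trans hst hω
    refine Integrable.of_bound ha.measurable.aestronglyMeasurable 1 (ae_of_all _ fun t => ?_)
    rw [Real.norm_eq_abs, abs_of_nonneg measureReal_nonneg]
    exact measureReal_le_one
  rw [hr P inferInstance, hr P' inferInstance]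
  have h3 : ∫ t in Set.Ioc (0 : ℝ) 2, P.real {ω | t ≤ f ω} ≤
      ∫ t in Set.Ioc (0 : ℝ) 2, (P'.real {ω | t ≤ f ω} + e) :=
    integral_mono (hint P inferInstance)
      ((hint P' inferInstance).add (integrable_const _)) fun t => h t
  refine h3.trans (le_of_eq ?_)
  rw [integral_add (hint P' inferInstance) (integrable_const _), integral_const]
  simp

theorem pf_WDS (hpnl : Pool.Agent.H40.AG.T_PNL) (hpxl : Pool.Agent.H40.AG.T_PXL)
    (hmem : Pool.Agent.H40.AG.T_MEM) (hrpc : Pool.Agent.H40.AG.T_RPC)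
    (hnco : Pool.Agent.H40.AG.T_NCO) (hdg : Pool.Agent.H40.AG.T_DGJ) : T_WDS := by
  intro c Z W L L₂ n R _ θ' θ'' i b hZ hW hL₂ hLL hJ hfst hsnd hrep
  classical
  have hdgp := hdg c.X c.μ Z
  have : IsProbabilityMeasure (dg c.μ) := hdgp.1
  have hD0 : 0 < Dlt c.β := by
    unfold Dlt
    refine Finset.prod_pos fun a _ => Finset.prod_pos fun a' _ => ?_
    split_ifs with h
    · exact one_pos
    · have : (c.β a : ℤ) - c.β a' ≠ 0 := sub_ne_zero.2 fun h' => h (by exact_mod_cast h')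
      exact Int.natAbs_pos.2 this
  obtain ⟨D, hD⟩ : ∃ D : ℕ, D = Dlt c.β := ⟨_, rfl⟩
  rw [← hD] at hD0 hLL hJ ⊢
  have hl1 : ∀ l, l < L₂ → D * l < L := fun l hl => by
    have : D * l < D * L₂ := Nat.mul_lt_mul_of_pos_left hl hD0
    rw [mul_comm L₂ D] at hLL
    omega
  have hl2 : ∀ l, l < L₂ → 1 * l < L := fun l hl => by
    have h1 : L₂ * 1 ≤ L₂ * D := Nat.mul_le_mul_left _ hD0
    omega
  have hFm : Measurable fun q : c.X × c.X => c.D1 i q * c.D2 i q :=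
    ((wds_meas c i).comp measurable_fst).mul ((wds_meas c i).comp measurable_snd)
  have hFb : ∀ q : c.X × c.X, |c.D1 i q * c.D2 i q| ≤ 1 := by
    intro q
    have h1 : c.D1 i q = 1 ∨ c.D1 i q = -1 := c.Dv _
    have h2 : c.D2 i q = 1 ∨ c.D2 i q = -1 := c.Dv _
    rcases h1 with h1 | h1 <;> rcases h2 with h2 | h2 <;> rw [h1, h2] <;> norm_num
  obtain ⟨Φ, hΦ⟩ : ∃ Φ : c.X × c.X → ℝ, Φ = fun q =>
    |Av (TT c.T) (W * D) L₂ (fun q => c.D1 i q * c.D2 i q) q -
      Av (TT c.T) W L₂ (fun q => c.D1 i q * c.D2 i q) q| := ⟨_, rfl⟩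
  have hΦm : Measurable Φ := by
    rw [hΦ]
    exact ((av_meas _ _ _ hFm).sub (av_meas _ _ _ hFm)).abs
  have hΦ0 : ∀ q, 0 ≤ Φ q := fun q => by rw [hΦ]; exact abs_nonneg _
  have hΦ2 : ∀ q, Φ q ≤ 2 := fun q => by
    rw [hΦ]
    have h1 := av_bdd (TT c.T) (W * D) L₂ zero_le_one hFb q
    have h2 := av_bdd (TT c.T) W L₂ zero_le_one hFb q
    refine (abs_sub _ _).trans ?_
    linarith
  have hmap : Measurable fun q : XX c.X (n + 1) => (q.2.1 b, q.2.2) :=
    ((measurable_pi_apply b).comp (measurable_fst.comp measurable_snd)).prodMk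
      (measurable_snd.comp measurable_snd)
  have hgoal : ∫ q, |Av (TX c.T (n + 1)) (W * D) L₂ (fun q => c.yL n i q * c.yX n b i q) q -
      Av (TX c.T (n + 1)) W L₂ (fun q => c.yL n i q * c.yX n b i q) q| ∂(PX c.μ Z (n + 1) R) =
      ∫ q, Φ (q.2.1 b, q.2.2) ∂(PX c.μ Z (n + 1) R) := by
    refine integral_congr_ae (ae_of_all _ fun q => ?_)
    simp only [hΦ, av_TX]
  rw [hgoal]
  -- the replacement
  have hrep' : ∀ t : ℝ, (PX c.μ Z (n + 1) R).real {q | t ≤ Φ (q.2.1 b, q.2.2)} ≤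
      (PX c.μ Z (n + 1) (dg c.μ)).real {q | t ≤ Φ (q.2.1 b, q.2.2)} + θ'' := by
    intro t
    have h := hrpc c.X c.μ Z (n + 1) R (Fin c.k → Fin L → Bool) (c.wd W L)
      (fun v => {p : XN c.X (n + 1) | t ≤ |gV c W D L L₂ i (p.2 b) v -
        gV c W 1 L L₂ i (p.2 b) v|}) hfst (Pool.Agent.H66.SG.CHR.wd_meas c W L) (fun v => by
        have hb : Measurable fun p : XN c.X (n + 1) => p.2 b :=
          (measurable_pi_apply b).comp measurable_snd
        exact measurableSet_le measurable_const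
          ((((gV_meas c W D L L₂ i v).comp hb).sub ((gV_meas c W 1 L L₂ i v).comp hb)).abs))
    have hset : {q : XX c.X (n + 1) | (q.1.1, q.2.1) ∈
        {p : XN c.X (n + 1) | t ≤ |gV c W D L L₂ i (p.2 b) (c.wd W L q.2.2) -
        gV c W 1 L L₂ i (p.2 b) (c.wd W L q.2.2)|}} = {q | t ≤ Φ (q.2.1 b, q.2.2)} := by
      ext q
      have e1 := av_gV c W D L L₂ i (q.2.1 b) q.2.2 hl1
      have e2 := av_gV c W 1 L L₂ i (q.2.1 b) q.2.2 hl2
      rw [mul_one] at e2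
      simp only [Set.mem_ofPred_eq, hΦ, e1, e2]
    rw [hset] at h
    exact h.trans (by linarith)
  have hlay := layer (PX c.μ Z (n + 1) R) (PX c.μ Z (n + 1) (dg c.μ))
    (hΦm.comp hmap) (fun q => hΦ0 _) (fun q => hΦ2 _) hrep'
  refine hlay.trans ?_
  have hx := hpxl c.X c.μ Z (n + 1) (dg c.μ) hdgp.2.1 hdgp.2.2.1
  have hlaw : MeasurePreserving (fun q : XX c.X (n + 1) => (q.2.1 b, q.2.2))
      (PX c.μ Z (n + 1) (dg c.μ)) (JJ c.μ Z) := by
    have := hx.2.2.2.1 b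
    rwa [hdgp.2.2.2] at this
  have hfin : ∫ q, Φ (q.2.1 b, q.2.2) ∂(PX c.μ Z (n + 1) (dg c.μ)) = ∫ q, Φ q ∂(JJ c.μ Z) := by
    rw [← hlaw.map_eq, integral_map hmap.aemeasurable hΦm.aestronglyMeasurable]
  have hJ' : ∫ q, Φ q ∂(JJ c.μ Z) ≤ θ' := by rw [hΦ]; exact hJ
  have : ∫ q, (Φ ∘ fun q : XX c.X (n + 1) => (q.2.1 b, q.2.2)) q ∂(PX c.μ Z (n + 1) (dg c.μ)) =
      ∫ q, Φ (q.2.1 b, q.2.2) ∂(PX c.μ Z (n + 1) (dg c.μ)) := rfl
  rw [this, hfin]
  linarith

end Pool.Agent.H86.SG
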